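import Pool.Agent.Lib_helper3.SH.Main

/-!
# Number fields
-/

open scoped Classical
open NumberField

namespace StarkSharp

variable (M : Type) [Field M] [NumberField M]

variable {M} in
/-- `c ∈ Gal(M/ℚ)` is a complex conjugation of `M`. -/
def IsComplexConj (c : M ≃ₐ[ℚ] M) : Prop :=
  ∃ Φ : M →+* ℂ, ComplexEmbedding.IsConj Φ c

/-- The subgroup of `Gal(M/ℚ)` generated by the products of two complex conjugations; for `M/ℚ`
Galois its fixed field is the largest subfield of `M` which is totally real or CM. -/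
def conjProducts : Subgroup (M ≃ₐ[ℚ] M) :=
  Subgroup.closure {x | ∃ c₁ c₂ : M ≃ₐ[ℚ] M, IsComplexConj c₁ ∧ IsComplexConj c₂ ∧ x = c₁ * c₂}

/-- The group generated by all characters of `Gal(M/ℚ)` which are induced from characters of
`Gal(M/F)`, `F` a subfield of `M` of even degree over `ℚ`. -/
noncomputable def inducedFromEven : AddSubgroup ((M ≃ₐ[ℚ] M) → ℂ) :=
  AddSubgroup.closure {f | ∃ (F : IntermediateField ℚ M) (V : Type) (_ : AddCommGroup V)
    (_ : Module ℂ V) (_ : Module.Finite ℂ V) (ρ : Representation ℂ F.fixingSubgroup V),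
      Even (Module.finrank ℚ F) ∧ f = indFun F.fixingSubgroup (extF F.fixingSubgroup ρ.character)}

variable {M} in
/-- `χ(c) = -χ(1)` for every complex conjugation `c`. -/
def IsTotallyOdd {V : Type} [AddCommGroup V] [Module ℂ V]
    (ρ : Representation ℂ (M ≃ₐ[ℚ] M) V) : Prop :=
  ∀ c, IsComplexConj c → ρ.character c = - ρ.character 1

variable {M} in
/-- The group generated by the characters of the representations `ρ` of `Gal(M/ℚ)` which are
totally odd, or have abelian image, or are trivial on `Gal(M/E)`. -/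
def oddAbelianOrFrom (E : IntermediateField ℚ M) : AddSubgroup ((M ≃ₐ[ℚ] M) → ℂ) :=
  AddSubgroup.closure {f | ∃ (V : Type) (_ : AddCommGroup V) (_ : Module ℂ V)
    (_ : Module.Finite ℂ V) (ρ : Representation ℂ (M ≃ₐ[ℚ] M) V),
      (IsTotallyOdd ρ ∨ (∀ g h, ρ g * ρ h = ρ h * ρ g) ∨ (∀ g ∈ E.fixingSubgroup, ρ g = 1)) ∧
        f = ρ.character}

variable {M}

theorem isComplexConj_conj {c : M ≃ₐ[ℚ] M} (hc : IsComplexConj c) (g : M ≃ₐ[ℚ] M) :
    IsComplexConj (g * c * g⁻¹) := by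
  obtain ⟨Φ, hΦ⟩ := hc
  refine ⟨Φ.comp (g⁻¹ : M ≃ₐ[ℚ] M), ?_⟩
  have := hΦ.comp g⁻¹
  simpa using this

instance conjProducts_normal : (conjProducts M).Normal := by
  constructor
  intro n hn g
  induction hn using Subgroup.closure_induction with
  | mem x hx =>
    obtain ⟨c₁, c₂, h₁, h₂, rfl⟩ := hx
    apply Subgroup.subset_closure
    exact ⟨g * c₁ * g⁻¹, g * c₂ * g⁻¹, isComplexConj_conj h₁ g, isComplexConj_conj h₂ g, by group⟩
  | one => simp
  | mul x y _ _ hx hy =>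
    have := (conjProducts M).mul_mem hx hy
    have e : g * (x * y) * g⁻¹ = g * x * g⁻¹ * (g * y * g⁻¹) := by group
    rwa [e]
  | inv x _ hx =>
    have := (conjProducts M).inv_mem hx
    have e : g * x⁻¹ * g⁻¹ = (g * x * g⁻¹)⁻¹ := by group
    rwa [e]

theorem complexConj_sq {c : M ≃ₐ[ℚ] M} (hc : IsComplexConj c) : c * c = 1 := by
  obtain ⟨Φ, hΦ⟩ := hc
  ext x
  exact ComplexEmbedding.isConj_apply_apply hΦ x

theorem eq_neg_one_of_trace {V : Type} [AddCommGroup V] [Module ℂ V] [Module.Finite ℂ V]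
    (T : V →ₗ[ℂ] V) (hT : T * T = 1) (htr : LinearMap.trace ℂ V T = - Module.finrank ℂ V) :
    T = -1 := by
  set e : V →ₗ[ℂ] V := (1 / 2 : ℂ) • (1 + T) with he
  have hidem : IsIdempotentElem e := by
    unfold IsIdempotentElem
    rw [he, smul_mul_smul_comm, mul_add, add_mul, add_mul, hT, one_mul, mul_one]
    have : (1 : V →ₗ[ℂ] V) + T + (T + 1) = (2 : ℂ) • (1 + T) := by
      rw [two_smul]; abel
    rw [one_mul, this, smul_smul]
    norm_num
  have htr0 : LinearMap.trace ℂ V e = 0 := by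
    rw [he, map_smul, map_add, htr, LinearMap.trace_one]
    simp
  have he0 : e = 0 := LinearMap.IsIdempotentElem.eq_zero_of_trace_eq_zero hidem htr0
  rw [he] at he0
  have h2 : (1 : V →ₗ[ℂ] V) + T = 0 := by
    have := congrArg (fun z => (2 : ℂ) • z) he0
    simpa [smul_smul] using this
  rw [add_comm] at h2
  exact eq_neg_of_add_eq_zero_left h2

theorem odd_conj {V : Type} [AddCommGroup V] [Module ℂ V] [Module.Finite ℂ V]
    (ρ : Representation ℂ (M ≃ₐ[ℚ] M) V) (hρ : IsTotallyOdd ρ) {c : M ≃ₐ[ℚ] M}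
    (hc : IsComplexConj c) : ρ c = -1 := by
  apply eq_neg_one_of_trace
  · rw [← map_mul, complexConj_sq hc, map_one]
  · have := hρ c hc
    rw [Representation.char_one] at this
    exact this

theorem exists_conjugate [IsGalois ℚ M] {c₁ c₂ : M ≃ₐ[ℚ] M} (h₁ : IsComplexConj c₁)
    (h₂ : IsComplexConj c₂) : ∃ g : M ≃ₐ[ℚ] M, c₂ = g⁻¹ * c₁ * g := by
  obtain ⟨Φ₁, hΦ₁⟩ := h₁
  obtain ⟨Φ₂, hΦ₂⟩ := h₂
  obtain ⟨σ, hσ⟩ := ComplexEmbedding.exists_comp_symm_eq_of_comp_eq (k := ℚ) Φ₁ Φ₂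
    (Subsingleton.elim _ _)
  refine ⟨σ.symm, ?_⟩
  have h3 := hΦ₁.comp σ.symm
  rw [hσ] at h3
  exact hΦ₂.ext h3

theorem rho_conjProducts [IsGalois ℚ M] {V : Type} [AddCommGroup V] [Module ℂ V]
    [Module.Finite ℂ V] (ρ : Representation ℂ (M ≃ₐ[ℚ] M) V)
    (hρ : IsTotallyOdd ρ ∨ (∀ g h, ρ g * ρ h = ρ h * ρ g)) (n : M ≃ₐ[ℚ] M)
    (hn : n ∈ conjProducts M) : ρ n = 1 := by
  induction hn using Subgroup.closure_induction with
  | mem x hx =>
    obtain ⟨c₁, c₂, h₁, h₂, rfl⟩ := hx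
    rcases hρ with hρ | hρ
    · rw [map_mul, odd_conj ρ hρ h₁, odd_conj ρ hρ h₂]
      simp
    · obtain ⟨g, rfl⟩ := exists_conjugate h₁ h₂
      have h4 : ρ (g⁻¹ * c₁ * g) = ρ c₁ := by
        rw [map_mul, map_mul, mul_assoc, hρ c₁ g, ← mul_assoc, ← map_mul ρ g⁻¹ g, inv_mul_cancel,
          map_one, one_mul]
      rw [map_mul, h4, ← map_mul, complexConj_sq h₁, map_one]
  | one => exact map_one _
  | mul x y _ _ hx hy => rw [map_mul, hx, hy, one_mul]
  | inv x _ hx =>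
    have h3 : ρ x⁻¹ * ρ x = 1 := by rw [← map_mul, inv_mul_cancel, map_one]
    rwa [hx, mul_one] at h3

theorem known_inv [IsGalois ℚ M] (E : IntermediateField ℚ M) (f : (M ≃ₐ[ℚ] M) → ℂ)
    (hf : f ∈ oddAbelianOrFrom E) (g n : M ≃ₐ[ℚ] M) (hn : n ∈ conjProducts M)
    (hnE : n ∈ E.fixingSubgroup) : f (g * n) = f g := by
  induction hf using AddSubgroup.closure_induction with
  | mem x hx =>
    obtain ⟨V, _, _, _, ρ, hρ, rfl⟩ := hx
    have h1 : ρ n = 1 := by
      rcases hρ with hρ | hρ | hρ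
      · exact rho_conjProducts ρ (Or.inl hρ) n hn
      · exact rho_conjProducts ρ (Or.inr hρ) n hn
      · exact hρ n hnE
    unfold Representation.character
    rw [map_mul, h1, mul_one]
  | zero => rfl
  | add x y _ _ hx hy => rw [Pi.add_apply, Pi.add_apply, hx, hy]
  | neg x _ hx => rw [Pi.neg_apply, Pi.neg_apply, hx]

theorem evenInduced_of_inducedFromEven [IsGalois ℚ M] (a : (M ≃ₐ[ℚ] M) → ℂ)
    (ha : a ∈ inducedFromEven M) : a ∈ evenInduced (M ≃ₐ[ℚ] M) := by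
  refine AddSubgroup.closure_mono ?_ ha
  rintro _ ⟨F, V, i1, i2, i3, ρ, hF, rfl⟩
  exact ⟨F.fixingSubgroup, V, i1, i2, i3, ρ, by
    rwa [← IntermediateField.finrank_eq_fixingSubgroup_index], rfl⟩

theorem fixingSubgroup_normal [IsGalois ℚ M] (E : IntermediateField ℚ M) [h : IsGalois ℚ E] :
    E.fixingSubgroup.Normal := by
  have e : (DivisionRing.toRatAlgebra : Algebra ℚ E) = IntermediateField.algebra' E :=
    Subsingleton.elim _ _
  have h2 : @IsGalois ℚ _ E _ (IntermediateField.algebra' E) := e ▸ h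
  exact @IsGalois.fixingSubgroup_normal_of_isGalois ℚ M _ _ _ E _ h2

/-- **Odd multiples of odd degree inductions are not formal consequences.** -/
theorem field_sharp [IsGalois ℚ M] (F E : IntermediateField ℚ M) [IsGalois ℚ E]
    (hF : Odd (Module.finrank ℚ F)) (ψ : F.fixingSubgroup →* ℂˣ) (k : ℕ) (hψ : ψ ^ (2 ^ k) = 1)
    (h : F.fixingSubgroup) (hN : (h : M ≃ₐ[ℚ] M) ∈ conjProducts M)
    (hE : (h : M ≃ₐ[ℚ] M) ∈ E.fixingSubgroup) (hh : (ψ h) ^ 2 ≠ 1)
    (a b c : (M ≃ₐ[ℚ] M) → ℂ) (ha : a ∈ inducedFromEven M)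
    (hb : b ∈ virtualChars (M ≃ₐ[ℚ] M)) (hbq : ∀ g, ∃ r : ℚ, b g = r)
    (hc : c ∈ oddAbelianOrFrom E) (m : ℤ) (hm : Odd m) :
    (fun g => (m : ℂ) * indFun F.fixingSubgroup (extF F.fixingSubgroup (fun h => (ψ h : ℂ))) g)
      ≠ a + b + c := by
  have hEn : E.fixingSubgroup.Normal := fixingSubgroup_normal E
  have hNn : (conjProducts M ⊓ E.fixingSubgroup).Normal := inferInstance
  refine group_sharp F.fixingSubgroup (conjProducts M ⊓ E.fixingSubgroup) ?_ ψ k hψ h ⟨hN, hE⟩ hh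
    a b c (evenInduced_of_inducedFromEven a ha) hb hbq ?_ m hm
  · rwa [← IntermediateField.finrank_eq_fixingSubgroup_index]
  · intro g n hn
    exact known_inv E c hc g n hn.1 hn.2

end StarkSharp
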