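import Mathlib

/-!
# Multiplicities of linear characters in induced class functions
-/

open scoped Classical

namespace StarkSharp

variable {G : Type} [Group G] [Fintype G]

/-- The class function of `G` induced from the function `f` on the subgroup `H` (only the values
of `f` on `H` matter). -/
noncomputable def indFun (H : Subgroup G) (f : G → ℂ) : G → ℂ :=
  fun g => (∑ x : G, if x⁻¹ * g * x ∈ H then f (x⁻¹ * g * x) else 0) / (Nat.card H : ℂ)

/-- extension by zero of a function on a subgroup -/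
noncomputable def extF {G : Type} [Group G] (H : Subgroup G) (f : H → ℂ) : G → ℂ :=
  fun g => if h : g ∈ H then f ⟨g, h⟩ else 0

omit [Fintype G] in
theorem extF_conj {H : Subgroup G} {f : H → ℂ} (hf : ∀ g h : H, f (h * g * h⁻¹) = f g)
    (h : H) (x : G) : extF H f ((h : G)⁻¹ * x * h) = extF H f x := by
  unfold extF
  by_cases hx : x ∈ H
  · have h1 : (h : G)⁻¹ * x * h ∈ H := H.mul_mem (H.mul_mem (H.inv_mem h.2) hx) h.2
    rw [dif_pos h1, dif_pos hx]
    have := hf ⟨x, hx⟩ h⁻¹
    rw [← this]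
    congr 1
    apply Subtype.ext
    simp
  · have h1 : (h : G)⁻¹ * x * h ∉ H := by
      intro h2
      apply hx
      have := H.mul_mem (H.mul_mem h.2 h2) (H.inv_mem h.2)
      have e : (h : G) * ((h : G)⁻¹ * x * h) * (h : G)⁻¹ = x := by group
      rwa [e] at this
    rw [dif_neg h1, dif_neg hx]

omit [Fintype G] in
theorem extF_out {H : Subgroup G} {f : H → ℂ} (hf : ∀ g h : H, f (h * g * h⁻¹) = f g)
    (s g : G) : extF H f (((g : G ⧸ H).out)⁻¹ * s * (g : G ⧸ H).out) = extF H f (g⁻¹ * s * g) := by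
  obtain ⟨h, hh⟩ := QuotientGroup.mk_out_eq_mul H g
  rw [hh]
  have := extF_conj hf h (g⁻¹ * s * g)
  rw [← this]
  congr 1
  group

theorem ind_eq {H : Subgroup G} {f : H → ℂ} (hf : ∀ g h : H, f (h * g * h⁻¹) = f g) (s : G) :
    indFun H (extF H f) s = ∑ y : G ⧸ H, extF H f (y.out⁻¹ * s * y.out) := by
  unfold indFun
  have h0 : ∀ x : G, (if x⁻¹ * s * x ∈ H then extF H f (x⁻¹ * s * x) else 0)
      = extF H f (x⁻¹ * s * x) := by
    intro x
    split_ifs with h
    · rfl
    · unfold extF
      rw [dif_neg h]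
  simp only [h0]
  have h1 : ∑ x : G, extF H f (x⁻¹ * s * x)
      = ∑ y : G ⧸ H, (Nat.card H : ℂ) * extF H f (y.out⁻¹ * s * y.out) := by
    rw [← Finset.sum_fiberwise (s := Finset.univ) (g := fun x : G => (x : G ⧸ H))]
    refine Finset.sum_congr rfl fun y _ => ?_
    have h2 : ∀ x ∈ Finset.univ.filter (fun x : G => (x : G ⧸ H) = y),
        extF H f (x⁻¹ * s * x) = extF H f (y.out⁻¹ * s * y.out) := by
      intro x hx
      rw [Finset.mem_filter] at hx
      rw [← hx.2, extF_out hf]
    rw [Finset.sum_congr rfl h2, Finset.sum_const, nsmul_eq_mul]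
    congr 2
    have h3 : (Finset.univ.filter (fun x : G => (x : G ⧸ H) = y)).card
        = Nat.card {x : G // (x : G ⧸ H) = y} := by
      rw [Nat.card_eq_fintype_card, Fintype.card_subtype]
    rw [h3]
    have e : {x : G // (x : G ⧸ H) = y} ≃ H :=
      { toFun := fun x => ⟨y.out⁻¹ * x.1, QuotientGroup.eq.mp (by
          rw [QuotientGroup.out_eq']; exact x.2.symm)⟩
        invFun := fun h => ⟨y.out * h, by
          rw [QuotientGroup.mk_mul_of_mem _ h.2, QuotientGroup.out_eq']⟩
        left_inv := fun x => by simp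
        right_inv := fun h => by simp }
    exact Nat.card_congr e
  rw [h1, ← Finset.mul_sum]
  have : (Nat.card H : ℂ) ≠ 0 := by
    exact_mod_cast Nat.card_pos.ne'
  field_simp

/-- the multiplicity of `ζ` in the restriction of `θ` to `S` -/
noncomputable def mlt (S : Subgroup G) (θ : G → ℂ) (ζ : S →* ℂˣ) : ℂ :=
  (∑ s : S, θ s * ((ζ s : ℂ))⁻¹) / (Nat.card S : ℂ)

theorem mlt_add (S : Subgroup G) (θ θ' : G → ℂ) (ζ : S →* ℂˣ) :
    mlt S (θ + θ') ζ = mlt S θ ζ + mlt S θ' ζ := by
  unfold mlt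
  rw [← add_div, ← Finset.sum_add_distrib]
  congr 1
  refine Finset.sum_congr rfl fun s _ => ?_
  rw [Pi.add_apply]
  ring

theorem mlt_neg (S : Subgroup G) (θ : G → ℂ) (ζ : S →* ℂˣ) :
    mlt S (-θ) ζ = - mlt S θ ζ := by
  unfold mlt
  rw [← neg_div, ← Finset.sum_neg_distrib]
  congr 1
  refine Finset.sum_congr rfl fun s _ => ?_
  rw [Pi.neg_apply]
  ring

theorem mlt_smul (S : Subgroup G) (r : ℂ) (θ : G → ℂ) (ζ : S →* ℂˣ) :
    mlt S (fun g => r * θ g) ζ = r * mlt S θ ζ := by
  unfold mlt
  rw [← mul_div_assoc, Finset.mul_sum]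
  congr 1
  refine Finset.sum_congr rfl fun s _ => ?_
  ring

theorem mlt_zero (S : Subgroup G) (ζ : S →* ℂˣ) : mlt S (0 : G → ℂ) ζ = 0 := by
  unfold mlt
  simp

/-- contribution of the point `y` of `G ⧸ H` -/
noncomputable def Iw (S H : Subgroup G) (f : H → ℂ) (ζ : S →* ℂˣ) (y : G ⧸ H) : ℂ :=
  (∑ u : MulAction.stabilizer S y, extF H f (y.out⁻¹ * (u : S) * y.out) * ((ζ u : ℂ))⁻¹) /
    (Nat.card (MulAction.stabilizer S y) : ℂ)

omit [Fintype G] in
theorem mem_of_smul_eq {H : Subgroup G} (s : G) (y : G ⧸ H) :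
    y.out⁻¹ * s * y.out ∈ H ↔ s • y = y := by
  have h1 : s • y = ((s * y.out : G) : G ⧸ H) := by
    conv_lhs => rw [← QuotientGroup.out_eq' y]
    rfl
  have h2 : s • y = y ↔ ((y.out : G) : G ⧸ H) = ((s * y.out : G) : G ⧸ H) := by
    rw [h1, QuotientGroup.out_eq']
    exact eq_comm
  rw [h2, QuotientGroup.eq]
  rw [mul_assoc]

theorem mlt_ind (S : Subgroup G) {H : Subgroup G} {f : H → ℂ}
    (hf : ∀ g h : H, f (h * g * h⁻¹) = f g) (ζ : S →* ℂˣ) :
    mlt S (indFun H (extF H f)) ζ =
      ∑ w : MulAction.orbitRel.Quotient S (G ⧸ H), Iw S H f ζ w.out := by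
  unfold mlt
  set b : G ⧸ H → ℂ := fun y => (∑ s : S, extF H f (y.out⁻¹ * s * y.out) * ((ζ s : ℂ))⁻¹) with hb
  have h1 : ∑ s : S, indFun H (extF H f) s * ((ζ s : ℂ))⁻¹ = ∑ y : G ⧸ H, b y := by
    rw [hb, Finset.sum_comm]
    refine Finset.sum_congr rfl fun s _ => ?_
    rw [ind_eq hf, Finset.sum_mul]
  have h2 : ∀ (t : S) (y : G ⧸ H), b (t • y) = b y := by
    intro t y
    rw [hb]
    have h3 : t • y = (((t : G) * y.out : G) : G ⧸ H) := by
      conv_lhs => rw [← QuotientGroup.out_eq' y]
      rfl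
    simp only
    rw [h3]
    simp only [extF_out hf]
    refine Fintype.sum_equiv (MulAut.conj t⁻¹).toEquiv _ _ fun s => ?_
    have h4 : (ζ ((MulAut.conj t⁻¹).toEquiv s) : ℂ) = ζ s := by
      have : (MulAut.conj t⁻¹).toEquiv s = t⁻¹ * s * t := by simp
      rw [this, map_mul, map_mul, map_inv, mul_comm, ← mul_assoc, mul_inv_cancel, one_mul]
    rw [h4]
    congr 2
    have : (((MulAut.conj t⁻¹).toEquiv s : S) : G) = (t : G)⁻¹ * s * t := by simp
    rw [this]
    group
  have h5 : ∀ y : G ⧸ H, b y = (Nat.card (MulAction.stabilizer S y) : ℂ) * Iw S H f ζ y := by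
    intro y
    unfold Iw
    rw [mul_div_cancel₀]
    · rw [hb]
      simp only
      have h6 : ∀ s : S, s ∉ MulAction.stabilizer S y →
          extF H f (y.out⁻¹ * s * y.out) * ((ζ s : ℂ))⁻¹ = 0 := by
        intro s hs
        unfold extF
        rw [dif_neg, zero_mul]
        intro h
        apply hs
        rw [MulAction.mem_stabilizer_iff]
        exact (mem_of_smul_eq (s : G) y).mp h
      rw [← Finset.sum_subset (Finset.subset_univ
        (Finset.univ.filter (fun s : S => s ∈ MulAction.stabilizer S y)))]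
      · exact Finset.sum_subtype (Finset.univ.filter (fun s : S => s ∈ MulAction.stabilizer S y))
          (by simp) (fun s : S => extF H f (y.out⁻¹ * s * y.out) * ((ζ s : ℂ))⁻¹)
      · intro s _ hs
        apply h6
        simpa using hs
    · exact_mod_cast Nat.card_pos.ne'
  rw [h1]
  rw [← Finset.sum_fiberwise (s := Finset.univ)
    (g := fun y : G ⧸ H => (Quotient.mk'' y : MulAction.orbitRel.Quotient S (G ⧸ H)))]
  rw [Finset.sum_div]
  refine Finset.sum_congr rfl fun w _ => ?_
  have h7 : ∀ y ∈ Finset.univ.filter (fun y : G ⧸ H =>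
      (Quotient.mk'' y : MulAction.orbitRel.Quotient S (G ⧸ H)) = w), b y = b w.out := by
    intro y hy
    rw [Finset.mem_filter] at hy
    have h8 : (Quotient.mk'' y : MulAction.orbitRel.Quotient S (G ⧸ H)) = Quotient.mk'' w.out := by
      rw [hy.2]
      exact (Quotient.out_eq' w).symm
    rw [Quotient.eq''] at h8
    obtain ⟨t, ht⟩ := h8
    have ht' : t • w.out = y := ht
    rw [← ht', h2]
  rw [Finset.sum_congr rfl h7, Finset.sum_const, nsmul_eq_mul, h5]
  have h9 : (Finset.univ.filter (fun y : G ⧸ H =>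
      (Quotient.mk'' y : MulAction.orbitRel.Quotient S (G ⧸ H)) = w)).card
      * Nat.card (MulAction.stabilizer S w.out) = Nat.card S := by
    have h10 : (Finset.univ.filter (fun y : G ⧸ H =>
      (Quotient.mk'' y : MulAction.orbitRel.Quotient S (G ⧸ H)) = w)).card
        = Nat.card (MulAction.orbit S w.out) := by
      rw [Nat.card_eq_fintype_card]
      rw [Fintype.card_of_subtype]
      intro y
      simp only [Finset.mem_filter, Finset.mem_univ, true_and]
      constructor
      · intro h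
        have h8 : (Quotient.mk'' y : MulAction.orbitRel.Quotient S (G ⧸ H))
            = Quotient.mk'' w.out := by
          rw [h]
          exact (Quotient.out_eq' w).symm
        rw [Quotient.eq''] at h8
        exact h8
      · intro h
        have h8 : (Quotient.mk'' y : MulAction.orbitRel.Quotient S (G ⧸ H))
            = Quotient.mk'' w.out := by
          rw [Quotient.eq'']
          exact h
        rw [h8]
        exact Quotient.out_eq' w
    rw [h10]
    rw [Nat.card_eq_fintype_card, Nat.card_eq_fintype_card, Nat.card_eq_fintype_card]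
    exact MulAction.card_orbit_mul_card_stabilizer_eq_card_group S w.out
  have h11 : (Nat.card S : ℂ) ≠ 0 := by exact_mod_cast Nat.card_pos.ne'
  rw [← h9]
  push_cast
  rw [← mul_assoc]
  rw [mul_div_assoc, mul_comm, div_mul_cancel₀]
  rw [← Nat.cast_mul, h9]
  exact h11

end StarkSharp
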