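import Pool.Agent.Lib_helper3.SH.Odd

/-!
# The group theoretic obstruction
-/

open scoped Classical Pointwise

namespace StarkSharp

/-- `R(G)`: the group of virtual characters, generated by the characters of all finite dimensional
complex representations of `G`. -/
def virtualChars (G : Type) [Group G] : AddSubgroup (G → ℂ) :=
  AddSubgroup.closure {f | ∃ (V : Type) (_ : AddCommGroup V) (_ : Module ℂ V)
    (_ : Module.Finite ℂ V) (ρ : Representation ℂ G V), f = ρ.character}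

/-- The group generated by all characters induced from subgroups of even index. -/
noncomputable def evenInduced (G : Type) [Group G] [Fintype G] : AddSubgroup (G → ℂ) :=
  AddSubgroup.closure {f | ∃ (H : Subgroup G) (V : Type) (_ : AddCommGroup V) (_ : Module ℂ V)
    (_ : Module.Finite ℂ V) (ρ : Representation ℂ H V), Even H.index ∧
      f = indFun H (extF H ρ.character)}

variable {G : Type} [Group G] [Fintype G]

theorem even_q_evenInduced (P : Sylow 2 G) (ξ : P →* ℂˣ) (f : G → ℂ) (hf : f ∈ evenInduced G) :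
    EvenC (q (P : Subgroup G) ξ f) := by
  induction hf using AddSubgroup.closure_induction with
  | mem x hx =>
    obtain ⟨H, V, _, _, _, ρ, hH, rfl⟩ := hx
    exact even_q_ind P ξ H hH ρ
  | zero => rw [q_zero]; exact EvenC.zero
  | add x y _ _ hx hy => rw [q_add]; exact hx.add hy
  | neg x _ hx => rw [q_neg]; exact hx.neg

theorem int_mlt_virtual (S : Subgroup G) (ζ : S →* ℂˣ) (f : G → ℂ) (hf : f ∈ virtualChars G) :
    ∃ m : ℤ, mlt S f ζ = m := by
  induction hf using AddSubgroup.closure_induction with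
  | mem x hx =>
    obtain ⟨V, _, _, _, ρ, rfl⟩ := hx
    exact int_mult (ρ.comp S.subtype) ζ
  | zero => exact ⟨0, by rw [mlt_zero]; simp⟩
  | add x y _ _ hx hy =>
    obtain ⟨m, hm⟩ := hx
    obtain ⟨n, hn⟩ := hy
    exact ⟨m + n, by rw [mlt_add, hm, hn]; push_cast; ring⟩
  | neg x _ hx =>
    obtain ⟨m, hm⟩ := hx
    exact ⟨-m, by rw [mlt_neg, hm]; push_cast; ring⟩

/-- an element of a subgroup `H ⊇ a⁻¹ P a` is, up to its odd part, conjugate into `P` -/
theorem exists_conj_elt (P : Sylow 2 G) (H N : Subgroup G) [N.Normal] (a : G)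
    (h : ∀ s ∈ (P : Subgroup G), a⁻¹ * s * a ∈ H) (ψ : H →* ℂˣ) (k : ℕ) (hψ : ψ ^ (2 ^ k) = 1)
    (h₀ : H) (hN : (h₀ : G) ∈ N) (hh : (ψ h₀) ^ 2 ≠ 1) :
    ∃ n : P, (n : G) ∈ N ∧ (ψ ⟨a⁻¹ * n * a, h n n.2⟩) ^ 2 ≠ 1 := by
  -- the 2-part of `h₀`
  obtain ⟨m, hm, e, hm2⟩ : ∃ m : ℕ, Odd m ∧ ∃ e : ℕ, (h₀ ^ m) ^ (2 ^ e) = 1 := by
    obtain ⟨e, m, hm, hem⟩ := Nat.exists_eq_two_pow_mul_odd (orderOf_pos h₀).ne'
    refine ⟨m, hm, e, ?_⟩
    rw [← pow_mul, mul_comm, ← hem, pow_orderOf_eq_one]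
  set h₁ := h₀ ^ m with hh₁
  have hN₁ : (h₁ : G) ∈ N := by
    rw [hh₁, Subgroup.coe_pow]
    exact N.pow_mem hN m
  have hψ₁ : (ψ h₁) ^ 2 ≠ 1 := by
    intro h2
    rw [hh₁, map_pow, ← pow_mul, mul_comm, pow_mul] at h2
    have h3 : ((ψ h₀) ^ 2) ^ (2 ^ k) = 1 := by
      rw [← pow_mul, mul_comm, pow_mul]
      have : (ψ h₀) ^ (2 ^ k) = 1 := by
        rw [← MonoidHom.pow_apply, hψ]
        rfl
      rw [this, one_pow]
    have h4 : Nat.Coprime m (2 ^ k) := (Nat.coprime_two_right.mpr hm).pow_right k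
    have h5 : orderOf ((ψ h₀) ^ 2) ∣ Nat.gcd m (2 ^ k) :=
      Nat.dvd_gcd (orderOf_dvd_of_pow_eq_one h2) (orderOf_dvd_of_pow_eq_one h3)
    rw [h4, Nat.dvd_one, orderOf_eq_one_iff] at h5
    exact hh h5
  -- Sylow subgroups of `H`
  set P' : Sylow 2 G := (a⁻¹ : G) • P with hP'
  have hle : (P' : Subgroup G) ≤ H := by
    intro x hx
    rw [hP', Sylow.coe_subgroup_smul, Subgroup.mem_pointwise_smul_iff_inv_smul_mem] at hx
    have h2 := h _ hx
    have e : a⁻¹ * ((MulAut.conj a⁻¹)⁻¹ • x) * a = x := by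
      simp [MulAut.smul_def, mul_assoc]
    rwa [e] at h2
  have hp : IsPGroup 2 (Subgroup.zpowers h₁) := by
    rw [IsPGroup.iff_card]
    have h6 : Nat.card (Subgroup.zpowers h₁) ∣ 2 ^ e := by
      rw [Nat.card_zpowers]
      exact orderOf_dvd_of_pow_eq_one hm2
    obtain ⟨j, -, hj⟩ := (Nat.dvd_prime_pow Nat.prime_two).mp h6
    exact ⟨j, hj⟩
  obtain ⟨Q, hQ⟩ := hp.exists_le_sylow
  obtain ⟨x, hx⟩ := MulAction.exists_smul_eq H Q (P'.subtype hle)
  have hmem : x * h₁ * x⁻¹ ∈ (P'.subtype hle : Subgroup H) := by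
    rw [← hx, Sylow.coe_subgroup_smul, Subgroup.mem_pointwise_smul_iff_inv_smul_mem]
    have h7 : h₁ ∈ (Q : Subgroup H) := hQ (Subgroup.mem_zpowers h₁)
    have e1 : (MulAut.conj x)⁻¹ • (x * h₁ * x⁻¹) = h₁ := by
      simp [MulAut.smul_def, mul_assoc]
    rwa [e1]
  have hmem2 : ((x * h₁ * x⁻¹ : H) : G) ∈ (P' : Subgroup G) := by
    exact hmem
  have hmem3 : a * ((x * h₁ * x⁻¹ : H) : G) * a⁻¹ ∈ (P : Subgroup G) := by
    rw [hP', Sylow.coe_subgroup_smul, Subgroup.mem_pointwise_smul_iff_inv_smul_mem] at hmem2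
    have e2 : (MulAut.conj a⁻¹)⁻¹ • ((x * h₁ * x⁻¹ : H) : G) =
        a * ((x * h₁ * x⁻¹ : H) : G) * a⁻¹ := by
      simp [MulAut.smul_def, mul_assoc]
    rwa [e2] at hmem2
  refine ⟨⟨_, hmem3⟩, ?_, ?_⟩
  · show a * ((x * h₁ * x⁻¹ : H) : G) * a⁻¹ ∈ N
    have h8 : ((x * h₁ * x⁻¹ : H) : G) ∈ N := by
      rw [Subgroup.coe_mul, Subgroup.coe_mul, Subgroup.coe_inv]
      exact Subgroup.Normal.conj_mem ‹N.Normal› _ hN₁ _
    exact Subgroup.Normal.conj_mem ‹N.Normal› _ h8 _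
  · have h9 : (⟨a⁻¹ * (a * ((x * h₁ * x⁻¹ : H) : G) * a⁻¹) * a, h _ hmem3⟩ : H)
        = x * h₁ * x⁻¹ := by
      apply Subtype.ext
      simp [mul_assoc]
    show (ψ ⟨a⁻¹ * (a * ((x * h₁ * x⁻¹ : H) : G) * a⁻¹) * a, h _ hmem3⟩) ^ 2 ≠ 1
    rw [h9, map_mul, map_mul, map_inv, mul_comm, ← mul_assoc, inv_mul_cancel, one_mul]
    exact hψ₁

/-- **The obstruction.**  `H` a subgroup of odd index of the finite group `G`, `ψ` a linear
character of `H` of 2-power order, `N` a normal subgroup of `G` such that `ψ²` is not trivial on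
`H ∩ N`.  Then no odd multiple of the character induced from `ψ` is the sum of an integral
combination of characters induced from subgroups of even index, a rational valued virtual character
and a function which is invariant under `N`. -/
theorem group_sharp (H N : Subgroup G) [N.Normal] (hH : Odd H.index) (ψ : H →* ℂˣ) (k : ℕ)
    (hψ : ψ ^ (2 ^ k) = 1) (h₀ : H) (hN : (h₀ : G) ∈ N) (hh : (ψ h₀) ^ 2 ≠ 1)
    (a b c : G → ℂ) (ha : a ∈ evenInduced G) (hb : b ∈ virtualChars G)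
    (hbq : ∀ g, ∃ r : ℚ, b g = r) (hc : ∀ g : G, ∀ n ∈ N, c (g * n) = c g)
    (m : ℤ) (hm : Odd m) :
    (fun g => (m : ℂ) * indFun H (extF H (fun h => (ψ h : ℂ))) g) ≠ a + b + c := by
  intro heq
  obtain ⟨P⟩ : Nonempty (Sylow 2 G) := inferInstance
  obtain ⟨y, h, v, hodd, hv⟩ := exists_odd P H hH ψ
  suffices hev : EvenC (q (P : Subgroup G) (conjChar (P : Subgroup G) H ψ y h) (a + b + c)) by
    rw [← heq, q_smul, hv] at hev
    obtain ⟨w, hw⟩ := hev
    have h5 : ((m * v : ℤ) : ℂ) = ((2 * w : ℤ) : ℂ) := by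
      push_cast
      exact hw
    have h6 : m * v = 2 * w := by exact_mod_cast h5
    have h7 : Odd (m * v) := hm.mul hodd
    rw [h6] at h7
    exact (Int.not_odd_iff_even.mpr (even_two_mul w)) h7
  rw [q_add, q_add]
  set ξ := conjChar (P : Subgroup G) H ψ y h with hξ
  obtain ⟨n, hnN, hn⟩ := exists_conj_elt P H N y.out h ψ k hψ h₀ hN hh
  have hn' : (ξ n) ^ 2 ≠ 1 := hn
  have hξk : ξ ^ (2 ^ k) = 1 := by
    refine MonoidHom.ext fun s => ?_
    have : (ψ ⟨y.out⁻¹ * s * y.out, h s s.2⟩) ^ (2 ^ k) = 1 := by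
      rw [← MonoidHom.pow_apply, hψ]
      rfl
    rw [MonoidHom.pow_apply]
    exact this
  -- the exact order
  have hex : ∃ j, ξ ^ (2 ^ j) = 1 := ⟨k, hξk⟩
  obtain ⟨j, hj, hj1⟩ : ∃ j, 1 ≤ j ∧ ξ ^ (2 ^ (j + 1)) = 1 ∧ ξ ^ (2 ^ j) ≠ 1 := by
    have h1 := Nat.find_spec hex
    have h2 : 2 ≤ Nat.find hex := by
      by_contra hlt
      push Not at hlt
      apply hn'
      have h3 : ξ ^ 2 = 1 := by
        interval_cases h4 : Nat.find hex
        · rw [pow_zero, pow_one] at h1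
          rw [h1]
          refine MonoidHom.ext fun s => ?_
          rw [MonoidHom.pow_apply, MonoidHom.one_apply, one_pow]
        · rw [pow_one] at h1
          exact h1
      rw [← MonoidHom.pow_apply, h3]
      rfl
    refine ⟨Nat.find hex - 1, by omega, ?_, ?_⟩
    · rw [Nat.sub_add_cancel (by omega)]
      exact h1
    · exact Nat.find_min hex (by omega)
  refine ((even_q_evenInduced P ξ a ha).add
    (even_q_rat (P : Subgroup G) ξ j hj hj1.1 hj1.2 b hbq
      (fun ζ => int_mlt_virtual (P : Subgroup G) ζ b hb))).add ?_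
  rw [q_infl (P : Subgroup G) ξ N c hc n hnN hn']
  exact EvenC.zero

end StarkSharp
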