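import Pool.Agent.Lib_helper3.SH.Q

/-!
# Inductions of odd index
-/

open scoped Classical

namespace StarkSharp

variable {G : Type} [Group G] [Fintype G]

/-- the one dimensional representation of a linear character -/
noncomputable def linRep {H : Type} [Group H] (ψ : H →* ℂˣ) : Representation ℂ H ℂ where
  toFun g := LinearMap.lsmul ℂ ℂ (ψ g : ℂ)
  map_one' := by ext; simp
  map_mul' a b := by ext; simp

theorem linRep_character {H : Type} [Group H] (ψ : H →* ℂˣ) (h : H) :
    (linRep ψ).character h = (ψ h : ℂ) := by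
  unfold Representation.character linRep
  show LinearMap.trace ℂ ℂ (LinearMap.lsmul ℂ ℂ (ψ h : ℂ)) = _
  have : (LinearMap.lsmul ℂ ℂ (ψ h : ℂ)) = (ψ h : ℂ) • (LinearMap.id : ℂ →ₗ[ℂ] ℂ) := by
    ext; simp
  rw [this, map_smul, LinearMap.trace_id]
  simp

theorem qc_injective {S : Type} [Group S] : Function.Injective (qc : (S →* ℤˣ) → (S →* ℂˣ)) := by
  intro η η' h
  refine MonoidHom.ext fun s => ?_
  have h1 := congrArg (fun z : S →* ℂˣ => ((z s : ℂˣ) : ℂ)) h
  simp only [qc, MonoidHom.comp_apply, Units.coe_map] at h1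
  apply Units.ext
  exact Int.cast_injective (α := ℂ) h1

/-- the conjugate character at a point with full stabiliser -/
noncomputable def conjChar (S H : Subgroup G) (ψ : H →* ℂˣ) (y : G ⧸ H)
    (h : ∀ s ∈ S, y.out⁻¹ * s * y.out ∈ H) : S →* ℂˣ where
  toFun s := ψ ⟨y.out⁻¹ * s * y.out, h s s.2⟩
  map_one' := by
    have : (⟨y.out⁻¹ * ((1 : S) : G) * y.out, h _ (1 : S).2⟩ : H) = 1 := by
      apply Subtype.ext
      simp
    rw [this, map_one]
  map_mul' a b := by
    rw [← map_mul]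
    congr 1
    apply Subtype.ext
    simp only [Subgroup.coe_mul]
    group

theorem Iw_full (S H : Subgroup G) (ψ : H →* ℂˣ) (y : G ⧸ H)
    (h : ∀ s ∈ S, y.out⁻¹ * s * y.out ∈ H) (ζ : S →* ℂˣ) :
    Iw S H (linRep ψ).character ζ y = if conjChar S H ψ y h = ζ then 1 else 0 := by
  unfold Iw
  have htop : MulAction.stabilizer S y = ⊤ := (stab_eq_top_iff S H y).mpr h
  have h1 : (∑ u : MulAction.stabilizer S y, extF H (linRep ψ).character
      (y.out⁻¹ * (u : S) * y.out) * ((ζ u : ℂ))⁻¹)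
      = ∑ s : S, ((((conjChar S H ψ y h) * ζ⁻¹) s : ℂˣ) : ℂ) := by
    have e : MulAction.stabilizer S y ≃ S := by
      rw [htop]
      exact Subgroup.topEquiv.toEquiv
    have h2 : ∀ s : S, extF H (linRep ψ).character (y.out⁻¹ * (s : S) * y.out) * ((ζ s : ℂ))⁻¹
        = ((((conjChar S H ψ y h) * ζ⁻¹) s : ℂˣ) : ℂ) := by
      intro s
      unfold extF
      rw [dif_pos (h s s.2), linRep_character]
      simp [conjChar]
    rw [← Finset.sum_subtype (Finset.univ.filter (fun s : S => s ∈ MulAction.stabilizer S y))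
          (by simp) (fun s : S => extF H (linRep ψ).character (y.out⁻¹ * s * y.out) * ((ζ s : ℂ))⁻¹)]
    rw [Finset.filter_true_of_mem (fun s _ => by rw [htop]; exact Subgroup.mem_top s)]
    exact Finset.sum_congr rfl fun s _ => h2 s
  have hcard : (Nat.card (MulAction.stabilizer S y) : ℂ) = Nat.card S := by
    rw [htop]
    norm_cast
    exact Nat.card_congr Subgroup.topEquiv.toEquiv
  have hS : (Nat.card S : ℂ) ≠ 0 := by exact_mod_cast Nat.card_pos.ne'
  rw [h1, hcard]
  set g : S →* ℂ := (Units.coeHom ℂ).comp ((conjChar S H ψ y h) * ζ⁻¹) with hg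
  have h3 := sum_hom_units g
  have h4 : ∑ s : S, ((((conjChar S H ψ y h) * ζ⁻¹) s : ℂˣ) : ℂ) = ∑ s : S, g s := rfl
  rw [h4, h3]
  by_cases h5 : conjChar S H ψ y h = ζ
  · have h6 : g = 1 := by
      refine MonoidHom.ext fun s => ?_
      simp [hg, h5]
    rw [if_pos h6, if_pos h5, ← Nat.card_eq_fintype_card, div_self hS]
  · have h6 : g ≠ 1 := by
      intro h7
      apply h5
      refine MonoidHom.ext fun s => ?_
      have h8 := congrArg (fun z : S →* ℂ => z s) h7
      simp only [hg, MonoidHom.comp_apply, Units.coeHom_apply, MonoidHom.mul_apply,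
        MonoidHom.inv_apply, MonoidHom.one_apply] at h8
      have h9 : conjChar S H ψ y h s * (ζ s)⁻¹ = 1 := Units.ext h8
      exact mul_inv_eq_one.mp h9
    rw [if_neg h6, if_neg h5, Nat.cast_zero, zero_div]

theorem sum_eta_full (S H : Subgroup G) (ψ : H →* ℂˣ) (y : G ⧸ H)
    (h : ∀ s ∈ S, y.out⁻¹ * s * y.out ∈ H) (ξ : S →* ℂˣ) :
    ∑ η : S →* ℤˣ, Iw S H (linRep ψ).character (ξ * qc η) y
      = if (conjChar S H ψ y h) ^ 2 = ξ ^ 2 then 1 else 0 := by
  simp only [Iw_full S H ψ y h]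
  by_cases h1 : (conjChar S H ψ y h) ^ 2 = ξ ^ 2
  · rw [if_pos h1]
    obtain ⟨η, hη⟩ := exists_qc (conjChar S H ψ y h * ξ⁻¹) (by
      refine MonoidHom.ext fun s => ?_
      have h2 := congrArg (fun z : S →* ℂˣ => z s) h1
      simp only [MonoidHom.pow_apply] at h2
      rw [MonoidHom.pow_apply, MonoidHom.mul_apply, MonoidHom.inv_apply, mul_pow, h2, inv_pow,
        mul_inv_cancel]
      rfl)
    have h3 : ∀ η' : S →* ℤˣ, conjChar S H ψ y h = ξ * qc η' ↔ η' = η := by
      intro η'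
      constructor
      · intro h4
        apply qc_injective
        rw [hη, h4]
        refine MonoidHom.ext fun s => ?_
        rw [MonoidHom.mul_apply, MonoidHom.mul_apply, MonoidHom.inv_apply, mul_comm (ξ s),
          mul_assoc, mul_inv_cancel, mul_one]
      · rintro rfl
        rw [hη]
        refine MonoidHom.ext fun s => ?_
        rw [MonoidHom.mul_apply, MonoidHom.mul_apply, MonoidHom.inv_apply, mul_comm (ξ s),
          mul_assoc, inv_mul_cancel, mul_one]
    simp only [h3]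
    simp
  · rw [if_neg h1]
    refine Finset.sum_eq_zero fun η _ => ?_
    rw [if_neg]
    intro h2
    apply h1
    rw [h2]
    refine MonoidHom.ext fun s => ?_
    have h3 : (qc η s) ^ 2 = 1 := by
      have : (η s) ^ 2 = 1 := Int.units_sq _
      rw [qc, MonoidHom.comp_apply, ← map_pow, this, map_one]
    rw [MonoidHom.pow_apply, MonoidHom.pow_apply, MonoidHom.mul_apply, mul_pow, h3, mul_one]

/-- the orbits of full points -/
noncomputable def fullPts (S H : Subgroup G) : Finset (MulAction.orbitRel.Quotient S (G ⧸ H)) :=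
  Finset.univ.filter (fun w => ∀ s ∈ S, (w.out : G ⧸ H).out⁻¹ * s * (w.out : G ⧸ H).out ∈ H)

theorem mem_fullPts (S H : Subgroup G) (w : MulAction.orbitRel.Quotient S (G ⧸ H)) :
    w ∈ fullPts S H ↔ ∀ s ∈ S, (w.out : G ⧸ H).out⁻¹ * s * (w.out : G ⧸ H).out ∈ H := by
  simp [fullPts]

theorem fullPts_card_odd (P : Sylow 2 G) (H : Subgroup G) (hH : Odd H.index) :
    Odd (fullPts (P : Subgroup G) H).card := by
  have h1 : Nat.card (G ⧸ H) ≡ Nat.card (MulAction.fixedPoints P (G ⧸ H)) [MOD 2] :=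
    P.isPGroup'.card_modEq_card_fixedPoints (G ⧸ H)
  have h2 : (fullPts (P : Subgroup G) H).card = Nat.card (MulAction.fixedPoints P (G ⧸ H)) := by
    rw [← Fintype.card_coe, ← Nat.card_eq_fintype_card]
    refine Nat.card_congr ?_
    refine Equiv.ofBijective (fun w => ⟨(w.1.out : G ⧸ H), ?_⟩) ⟨?_, ?_⟩
    · rw [MulAction.mem_fixedPoints]
      intro s
      have h3 := (mem_fullPts _ _ _).mp w.2
      exact (mem_of_smul_eq (s : G) _).mp (h3 s s.2)
    · intro w w' hww
      have h3 : (w.1.out : G ⧸ H) = w'.1.out := congrArg Subtype.val hww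
      apply Subtype.ext
      rw [← Quotient.out_eq' w.1, ← Quotient.out_eq' w'.1]
      exact congrArg _ h3
    · rintro ⟨y, hy⟩
      rw [MulAction.mem_fixedPoints] at hy
      have h4 : ((Quotient.mk'' y : MulAction.orbitRel.Quotient P (G ⧸ H)).out : G ⧸ H) = y := by
        have h5 : (Quotient.mk'' ((Quotient.mk'' y : MulAction.orbitRel.Quotient P (G ⧸ H)).out) :
            MulAction.orbitRel.Quotient P (G ⧸ H)) = Quotient.mk'' y := Quotient.out_eq' _
        rw [Quotient.eq''] at h5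
        obtain ⟨t, ht⟩ := h5
        rw [← ht]
        exact hy t
      refine ⟨⟨Quotient.mk'' y, ?_⟩, ?_⟩
      · rw [fullPts, Finset.mem_filter]
        refine ⟨Finset.mem_univ _, fun s hs => ?_⟩
        rw [mem_of_smul_eq, h4]
        exact hy ⟨s, hs⟩
      · apply Subtype.ext
        exact h4
  rw [h2]
  have h6 : Odd (Nat.card (G ⧸ H)) := hH
  rw [Nat.odd_iff] at h6 ⊢
  rw [← h6]
  exact h1.symm

/-- **Part 4**: for an induction of odd index some functional is odd -/
theorem exists_odd (P : Sylow 2 G) (H : Subgroup G) (hH : Odd H.index) (ψ : H →* ℂˣ) :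
    ∃ (y : G ⧸ H) (h : ∀ s ∈ (P : Subgroup G), y.out⁻¹ * s * y.out ∈ H),
      ∃ n : ℤ, Odd n ∧ q (P : Subgroup G) (conjChar P H ψ y h)
        (indFun H (extF H (fun h => (ψ h : ℂ)))) = n := by
  set κ : MulAction.orbitRel.Quotient P (G ⧸ H) → (P →* ℂˣ) := fun w =>
    if h : ∀ s ∈ (P : Subgroup G), (w.out : G ⧸ H).out⁻¹ * s * (w.out : G ⧸ H).out ∈ H then
      (conjChar P H ψ w.out h) ^ 2 else 1 with hκ
  have hodd := fullPts_card_odd P H hH
  have h1 : ∃ w₀ ∈ fullPts (P : Subgroup G) H,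
      Odd ((fullPts (P : Subgroup G) H).filter (fun w => κ w = κ w₀)).card := by
    by_contra hcon
    push Not at hcon
    have h2 := Finset.card_eq_sum_card_image κ (fullPts (P : Subgroup G) H)
    rw [h2] at hodd
    rw [← Nat.not_even_iff_odd] at hodd
    apply hodd
    refine Finset.even_sum _ ?_
    intro b hb
    rw [Finset.mem_image] at hb
    obtain ⟨w₀, hw₀, rfl⟩ := hb
    have := hcon w₀ hw₀
    rwa [Nat.not_odd_iff_even] at this
  obtain ⟨w₀, hw₀, hfib⟩ := h1
  have hfull₀ : ∀ s ∈ (P : Subgroup G), (w₀.out : G ⧸ H).out⁻¹ * s * (w₀.out : G ⧸ H).out ∈ H := by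
    rw [fullPts, Finset.mem_filter] at hw₀
    exact hw₀.2
  refine ⟨w₀.out, hfull₀, ?_⟩
  set ξ := conjChar P H ψ w₀.out hfull₀ with hξ
  have hκ₀ : κ w₀ = ξ ^ 2 := by
    rw [hκ]
    simp only
    rw [dif_pos hfull₀]
  have hchar : (fun h : H => (ψ h : ℂ)) = (linRep ψ).character := by
    funext h
    rw [linRep_character]
  rw [hchar, q_ind _ _ (char_class (linRep ψ))]
  rw [← Finset.sum_filter_add_sum_filter_not Finset.univ (fun w => w ∈ fullPts (P : Subgroup G) H)]
  have hA : ∑ w ∈ Finset.univ.filter (fun w => w ∈ fullPts (P : Subgroup G) H),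
      ∑ η : P →* ℤˣ, Iw P H (linRep ψ).character (ξ * qc η) w.out
      = (((fullPts (P : Subgroup G) H).filter (fun w => κ w = κ w₀)).card : ℂ) := by
    rw [Finset.filter_mem_eq_inter, Finset.univ_inter]
    rw [Finset.card_filter]
    push_cast
    refine Finset.sum_congr rfl fun w hw => ?_
    have hfull : ∀ s ∈ (P : Subgroup G), (w.out : G ⧸ H).out⁻¹ * s * (w.out : G ⧸ H).out ∈ H := by
      rw [fullPts, Finset.mem_filter] at hw
      exact hw.2
    rw [sum_eta_full P H ψ w.out hfull ξ]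
    have hκw : κ w = (conjChar P H ψ w.out hfull) ^ 2 := by
      rw [hκ]
      simp only
      rw [dif_pos hfull]
    rw [hκw, hκ₀]
  have hB : EvenC (∑ w ∈ Finset.univ.filter (fun w => ¬ w ∈ fullPts (P : Subgroup G) H),
      ∑ η : P →* ℤˣ, Iw P H (linRep ψ).character (ξ * qc η) w.out) := by
    refine EvenC.sum _ _ fun w hw => ?_
    refine even_Iw _ P.isPGroup' ξ H (linRep ψ) _ ?_
    rw [Ne, stab_eq_top_iff]
    intro h
    rw [Finset.mem_filter] at hw
    apply hw.2
    rw [fullPts, Finset.mem_filter]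
    exact ⟨Finset.mem_univ _, h⟩
  rw [hA]
  obtain ⟨n, hn⟩ := hB
  rw [hn]
  obtain ⟨l, hl⟩ := hfib
  rw [hl]
  refine ⟨2 * (l + n) + 1, ⟨l + n, rfl⟩, ?_⟩
  push_cast
  ring

end StarkSharp
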