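import Pool.Agent.Lib_helper3.SH.Mackey

/-!
# Parity of the sum of multiplicities over a coset of the quadratic characters
-/

open scoped Classical

namespace StarkSharp

/-- the representation `ζ⁻¹ ⊗ ρ` averaged: integrality of multiplicities of a linear character -/
theorem int_mult {U : Type} [Group U] [Fintype U] {V : Type} [AddCommGroup V] [Module ℂ V]
    [Module.Finite ℂ V] (ρ : Representation ℂ U V) (ζ : U →* ℂˣ) :
    ∃ n : ℤ, (∑ u : U, ρ.character u * ((ζ u : ℂ))⁻¹) / (Nat.card U : ℂ) = n := by
  have hne : (Nat.card U : ℂ) ≠ 0 := by exact_mod_cast Nat.card_pos.ne'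
  let : Invertible (Nat.card U : ℂ) := invertibleOfNonzero hne
  let σ : Representation ℂ U V :=
    { toFun := fun u => ((ζ u : ℂ))⁻¹ • ρ u
      map_one' := by simp
      map_mul' := by
        intro a b
        rw [map_mul, map_mul, Units.val_mul, mul_inv, smul_mul_smul_comm] }
  have h := Representation.card_inv_mul_sum_char_eq_finrank σ
  refine ⟨(Module.finrank ℂ (Representation.invariants σ) : ℤ), ?_⟩
  rw [Int.cast_natCast, ← h, div_eq_inv_mul]
  congr 1
  refine Finset.sum_congr rfl fun u _ => ?_
  show _ = LinearMap.trace ℂ V (((ζ u : ℂ))⁻¹ • ρ u)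
  rw [map_smul, smul_eq_mul, mul_comm]
  rfl

variable {G : Type} [Group G] [Fintype G]

theorem int_Iw (S H : Subgroup G) {V : Type} [AddCommGroup V] [Module ℂ V]
    [Module.Finite ℂ V] (τ : Representation ℂ H V) (ζ : S →* ℂˣ) (y : G ⧸ H) :
    ∃ n : ℤ, Iw S H τ.character ζ y = n := by
  have hmem : ∀ u : MulAction.stabilizer S y, y.out⁻¹ * ((u : S) : G) * y.out ∈ H := by
    intro u
    rw [mem_of_smul_eq]
    exact u.2
  let ρ : Representation ℂ (MulAction.stabilizer S y) V :=
    { toFun := fun u => τ ⟨y.out⁻¹ * ((u : S) : G) * y.out, hmem u⟩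
      map_one' := by
        have : (⟨y.out⁻¹ * (((1 : MulAction.stabilizer S y) : S) : G) * y.out, hmem 1⟩ : H) = 1 := by
          apply Subtype.ext
          simp
        rw [this, map_one]
      map_mul' := by
        intro a b
        rw [← map_mul]
        congr 1
        apply Subtype.ext
        simp only [Subgroup.coe_mul]
        group }
  obtain ⟨n, hn⟩ := int_mult ρ (ζ.comp (MulAction.stabilizer S y).subtype)
  refine ⟨n, ?_⟩
  rw [← hn]
  unfold Iw
  congr 1
  refine Finset.sum_congr rfl fun u _ => ?_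
  congr 1
  unfold extF
  rw [dif_pos (hmem u)]
  rfl

omit [Fintype G] in
theorem Iw_congr [Fintype G] (S H : Subgroup G) (f : H → ℂ) (ζ ζ' : S →* ℂˣ) (y : G ⧸ H)
    (h : ∀ u : S, u ∈ MulAction.stabilizer S y → ζ u = ζ' u) : Iw S H f ζ y = Iw S H f ζ' y := by
  unfold Iw
  congr 1
  refine Finset.sum_congr rfl fun u _ => ?_
  rw [h u u.2]

/-- the linear character attached to a quadratic character -/
noncomputable def qc {S : Type} [Group S] (η : S →* ℤˣ) : S →* ℂˣ :=
  (Units.map (Int.castRingHom ℂ : ℤ →* ℂ)).comp η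

theorem qc_mul {S : Type} [Group S] (η η' : S →* ℤˣ) : qc (η * η') = qc η * qc η' := by
  ext s
  simp [qc]

theorem qc_apply_eq {S : Type} [Group S] (η η' : S →* ℤˣ) (s : S) (h : η s = η' s) :
    qc η s = qc η' s := by
  simp [qc, h]

/-- lift of a linear character of order two -/
theorem exists_qc {S : Type} [Group S] (ζ : S →* ℂˣ) (h : ζ ^ 2 = 1) : ∃ η : S →* ℤˣ, qc η = ζ := by
  have h1 : ∀ s, ζ s = 1 ∨ ζ s = -1 := by
    intro s
    have h2 : (ζ s) ^ 2 = 1 := by
      have := congrArg (fun z : S →* ℂˣ => z s) h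
      simpa using this
    have h3 : ((ζ s : ℂˣ) : ℂ) ^ 2 = 1 := by
      rw [← Units.val_pow_eq_pow_val, h2, Units.val_one]
    rcases (mul_self_eq_one_iff.mp (by rwa [sq] at h3)) with h4 | h4
    · left; exact Units.ext h4
    · right; exact Units.ext (by simpa using h4)
  have hne : (-1 : ℂˣ) ≠ 1 := by
    intro h
    have := congrArg Units.val h
    norm_num at this
  refine ⟨{ toFun := fun s => if ζ s = 1 then 1 else -1
            map_one' := by simp
            map_mul' := ?_ }, ?_⟩
  · intro a b
    simp only [map_mul]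
    rcases h1 a with ha | ha <;> rcases h1 b with hb | hb <;> simp [ha, hb, hne]
  · ext s
    rcases h1 s with hs | hs
    · simp [qc, hs]
    · simp [qc, hs, hne]

/-- a proper subgroup of a finite 2-group is killed by a nontrivial quadratic character -/
theorem exists_quad {S : Type} [Group S] [Finite S] (hS : IsPGroup 2 S) (U : Subgroup S)
    (hU : U ≠ ⊤) : ∃ δ : S →* ℤˣ, δ ≠ 1 ∧ ∀ u ∈ U, δ u = 1 := by
  obtain ⟨V, hV, hUV⟩ := (eq_top_or_exists_le_coatom U).resolve_left hU
  have hnil : Group.IsNilpotent S := hS.isNilpotent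
  have hnorm : V.Normal := Subgroup.NormalizerCondition.normal_of_coatom V
    Group.normalizerCondition_of_isNilpotent hV
  have hidx : V.index = 2 := by
    have h1 : IsPGroup 2 (S ⧸ V) := hS.to_quotient V
    have h2 : Nontrivial (S ⧸ V) := by
      rw [← not_subsingleton_iff_nontrivial]
      intro h
      exact hV.1 (QuotientGroup.subgroup_eq_top_of_subsingleton V h)
    obtain ⟨n, hn⟩ := IsPGroup.iff_card.mp h1
    have hn0 : n ≠ 0 := by
      rintro rfl
      rw [pow_zero] at hn
      have := Finite.one_lt_card (α := S ⧸ V)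
      omega
    have h2dvd : 2 ∣ Nat.card (S ⧸ V) := by
      rw [hn]
      exact dvd_pow_self 2 hn0
    obtain ⟨x, hx⟩ := exists_prime_orderOf_dvd_card' 2 h2dvd
    have hx1 : x ≠ 1 := by
      rintro rfl
      rw [orderOf_one] at hx
      omega
    have hlt : V < (Subgroup.zpowers x).comap (QuotientGroup.mk' V) := by
      rw [SetLike.lt_iff_le_and_exists]
      constructor
      · intro v hv
        rw [Subgroup.mem_comap, QuotientGroup.mk'_apply, (QuotientGroup.eq_one_iff v).mpr hv]
        exact Subgroup.one_mem _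
      · obtain ⟨y, rfl⟩ := QuotientGroup.mk'_surjective V x
        refine ⟨y, ?_, ?_⟩
        · rw [Subgroup.mem_comap]
          exact Subgroup.mem_zpowers _
        · intro hy
          exact hx1 ((QuotientGroup.eq_one_iff y).mpr hy)
    have htop := hV.2 _ hlt
    have htop2 : Subgroup.zpowers x = ⊤ := by
      rw [eq_top_iff]
      rintro z -
      obtain ⟨y, rfl⟩ := QuotientGroup.mk'_surjective V z
      have : y ∈ (Subgroup.zpowers x).comap (QuotientGroup.mk' V) := by
        rw [htop]; exact Subgroup.mem_top _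
      exact this
    rw [Subgroup.index, ← Subgroup.card_top (G := S ⧸ V), ← htop2, Nat.card_zpowers, hx]
  refine ⟨{ toFun := fun s => if s ∈ V then 1 else -1
            map_one' := by simp [V.one_mem]
            map_mul' := ?_ }, ?_, ?_⟩
  · intro a b
    have := Subgroup.mul_mem_iff_of_index_two hidx (a := a) (b := b)
    by_cases ha : a ∈ V <;> by_cases hb : b ∈ V <;> simp [this, ha, hb]
  · intro h
    apply hV.1
    rw [eq_top_iff]
    rintro s -
    have := congrArg (fun z : S →* ℤˣ => z s) h
    by_contra hs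
    simp [hs] at this
  · intro u hu
    simp [hUV hu]

end StarkSharp
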