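import Pool.Agent.Lib_helper3.SH.Parity

/-!
# The parity functional
-/

open scoped Classical

namespace StarkSharp

/-- even integers in `ℂ` -/
def EvenC (z : ℂ) : Prop := ∃ n : ℤ, z = 2 * n

theorem EvenC.add {a b : ℂ} (ha : EvenC a) (hb : EvenC b) : EvenC (a + b) := by
  obtain ⟨m, rfl⟩ := ha
  obtain ⟨n, rfl⟩ := hb
  exact ⟨m + n, by push_cast; ring⟩

theorem EvenC.neg {a : ℂ} (ha : EvenC a) : EvenC (-a) := by
  obtain ⟨m, rfl⟩ := ha
  exact ⟨-m, by push_cast; ring⟩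

theorem EvenC.zero : EvenC 0 := ⟨0, by simp⟩

theorem EvenC.sum {ι : Type*} (s : Finset ι) (f : ι → ℂ) (h : ∀ i ∈ s, EvenC (f i)) :
    EvenC (∑ i ∈ s, f i) := by
  classical
  induction s using Finset.induction_on with
  | empty => simpa using EvenC.zero
  | insert a s ha ih =>
    rw [Finset.sum_insert ha]
    exact (h a (Finset.mem_insert_self _ _)).add
      (ih fun i hi => h i (Finset.mem_insert_of_mem hi))

theorem even_of_invol {S : Type} [Group S] [Finite S] [Fintype (S →* ℤˣ)] (g : (S →* ℤˣ) → ℂ)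
    (hint : ∀ η, ∃ n : ℤ, g η = n) (δ : S →* ℤˣ) (hδ : δ ≠ 1) (h : ∀ η, g (η * δ) = g η) :
    EvenC (∑ η, g η) := by
  choose m hm using hint
  have h1 : ∑ η, ((m η : ℤ) : ZMod 2) = 0 := by
    refine Finset.sum_involution (fun η _ => η * δ) ?_ ?_ ?_ ?_
    · intro η _
      have h2 : m (η * δ) = m η := by
        have h3 := h η
        rw [hm, hm] at h3
        exact_mod_cast h3
      rw [h2]
      exact CharTwo.add_self_eq_zero _
    · intro η _ _ h4
      exact hδ (mul_eq_left.mp h4)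
    · intro η _
      exact Finset.mem_univ _
    · intro η _
      show η * δ * δ = η
      rw [mul_assoc]
      have : δ * δ = 1 := by
        ext s
        simp
      rw [this, mul_one]
  have h2 : ((∑ η, m η : ℤ) : ZMod 2) = 0 := by
    rw [Int.cast_sum]
    exact h1
  rw [ZMod.intCast_zmod_eq_zero_iff_dvd] at h2
  obtain ⟨n, hn⟩ := h2
  refine ⟨n, ?_⟩
  simp only [hm]
  rw [← Int.cast_sum, hn]
  push_cast
  ring

variable {G : Type} [Group G] [Fintype G]

noncomputable instance instFintypeQ (S : Type) [Group S] [Finite S] : Fintype (S →* ℤˣ) :=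
  have : Finite (S →* ℤˣ) := Finite.of_injective (fun f : S →* ℤˣ => (f : S → ℤˣ))
    DFunLike.coe_injective
  Fintype.ofFinite _

/-- the functional -/
noncomputable def q (S : Subgroup G) (ξ : S →* ℂˣ) (θ : G → ℂ) : ℂ :=
  ∑ η : S →* ℤˣ, mlt S θ (ξ * qc η)

theorem q_add (S : Subgroup G) (ξ : S →* ℂˣ) (θ θ' : G → ℂ) :
    q S ξ (θ + θ') = q S ξ θ + q S ξ θ' := by
  unfold q
  rw [← Finset.sum_add_distrib]
  exact Finset.sum_congr rfl fun η _ => mlt_add S θ θ' _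

theorem q_smul (S : Subgroup G) (ξ : S →* ℂˣ) (r : ℂ) (θ : G → ℂ) :
    q S ξ (fun g => r * θ g) = r * q S ξ θ := by
  unfold q
  rw [Finset.mul_sum]
  exact Finset.sum_congr rfl fun η _ => mlt_smul S r θ _

theorem q_neg (S : Subgroup G) (ξ : S →* ℂˣ) (θ : G → ℂ) : q S ξ (-θ) = - q S ξ θ := by
  unfold q
  rw [← Finset.sum_neg_distrib]
  exact Finset.sum_congr rfl fun η _ => mlt_neg S θ _

theorem q_zero (S : Subgroup G) (ξ : S →* ℂˣ) : q S ξ (0 : G → ℂ) = 0 := by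
  unfold q
  simp [mlt_zero]

/-- the contribution of a point with a proper stabiliser is even -/
theorem even_Iw (S : Subgroup G) (hS : IsPGroup 2 S) (ξ : S →* ℂˣ) (H : Subgroup G) {V : Type}
    [AddCommGroup V] [Module ℂ V] [Module.Finite ℂ V] (τ : Representation ℂ H V) (y : G ⧸ H)
    (hy : MulAction.stabilizer S y ≠ ⊤) :
    EvenC (∑ η : S →* ℤˣ, Iw S H τ.character (ξ * qc η) y) := by
  obtain ⟨δ, hδ, hδU⟩ := exists_quad hS _ hy
  refine even_of_invol _ (fun η => int_Iw S H τ _ y) δ hδ ?_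
  intro η
  apply Iw_congr
  intro u hu
  rw [MonoidHom.mul_apply, MonoidHom.mul_apply]
  congr 1
  apply qc_apply_eq
  rw [MonoidHom.mul_apply, hδU u hu, mul_one]

omit [Fintype G] in
theorem char_class {H : Subgroup G} {V : Type}
    [AddCommGroup V] [Module ℂ V] [Module.Finite ℂ V] (τ : Representation ℂ H V) :
    ∀ g h : H, τ.character (h * g * h⁻¹) = τ.character g := fun g h => τ.char_conj g h

theorem q_ind (S : Subgroup G) (ξ : S →* ℂˣ) {H : Subgroup G} {f : H → ℂ}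
    (hf : ∀ g h : H, f (h * g * h⁻¹) = f g) :
    q S ξ (indFun H (extF H f)) =
      ∑ w : MulAction.orbitRel.Quotient S (G ⧸ H), ∑ η : S →* ℤˣ, Iw S H f (ξ * qc η) w.out := by
  unfold q
  rw [Finset.sum_comm]
  exact Finset.sum_congr rfl fun η _ => mlt_ind S hf _

omit [Fintype G] in
theorem stab_eq_top_iff (S H : Subgroup G) (y : G ⧸ H) :
    MulAction.stabilizer S y = ⊤ ↔ ∀ s ∈ S, y.out⁻¹ * s * y.out ∈ H := by
  rw [eq_top_iff]
  constructor
  · intro h s hs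
    rw [mem_of_smul_eq]
    have := h (Subgroup.mem_top (⟨s, hs⟩ : S))
    exact this
  · rintro h ⟨s, hs⟩ -
    exact (mem_of_smul_eq s y).mp (h s hs)

/-- **Part 1**: inductions of even index -/
theorem even_q_ind (P : Sylow 2 G) (ξ : P →* ℂˣ) (H : Subgroup G) (hH : Even H.index) {V : Type}
    [AddCommGroup V] [Module ℂ V] [Module.Finite ℂ V] (τ : Representation ℂ H V) :
    EvenC (q (P : Subgroup G) ξ (indFun H (extF H τ.character))) := by
  rw [q_ind _ _ (char_class τ)]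
  refine EvenC.sum _ _ fun w _ => even_Iw _ P.isPGroup' ξ H τ _ ?_
  rw [Ne, stab_eq_top_iff]
  intro h
  -- the Sylow subgroup is conjugate into `H`
  set a := w.out.out with ha
  have hle : (P : Subgroup G) ≤ H.map (MulAut.conj a).toMonoidHom := by
    intro s hs
    rw [Subgroup.mem_map]
    exact ⟨a⁻¹ * s * a, h s hs, by simp [mul_assoc]⟩
  have h1 : (H.map (MulAut.conj a).toMonoidHom).index ∣ (P : Subgroup G).index :=
    Subgroup.index_dvd_of_le hle
  have h2 : (H.map (MulAut.conj a).toMonoidHom).index = H.index :=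
    Subgroup.index_map_equiv H (MulAut.conj a)
  rw [h2] at h1
  have h3 : ¬ 2 ∣ (P : Subgroup G).index := P.not_dvd_index
  exact h3 (hH.two_dvd.trans h1)

/-- **Part 3**: class functions which do not see `N` -/
theorem q_infl (S : Subgroup G) (ξ : S →* ℂˣ) (N : Subgroup G) (θ : G → ℂ)
    (hθ : ∀ g : G, ∀ n ∈ N, θ (g * n) = θ g) (n : S) (hn : (n : G) ∈ N)
    (hξ : (ξ n) ^ 2 ≠ 1) : q S ξ θ = 0 := by
  unfold q
  refine Finset.sum_eq_zero fun η _ => ?_
  set ζ := ξ * qc η with hζ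
  have h1 : ((ζ n : ℂˣ) : ℂ)⁻¹ ≠ 1 := by
    intro h
    apply hξ
    have h2 : ζ n = 1 := by
      rw [inv_eq_one] at h
      exact Units.ext h
    have h3 : (qc η n) ^ 2 = 1 := by
      have : (η n) ^ 2 = 1 := by
        exact Int.units_sq _
      rw [qc, MonoidHom.comp_apply, ← map_pow, this, map_one]
    have h4 : (ζ n) ^ 2 = (ξ n) ^ 2 * (qc η n) ^ 2 := by
      rw [hζ, MonoidHom.mul_apply, mul_pow]
    rw [h2, h3, one_pow, mul_one] at h4
    exact h4.symm
  unfold mlt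
  have h2 : ∑ s : S, θ s * ((ζ s : ℂ))⁻¹ = ((ζ n : ℂˣ) : ℂ)⁻¹ * ∑ s : S, θ s * ((ζ s : ℂ))⁻¹ := by
    rw [Finset.mul_sum]
    refine (Fintype.sum_equiv (Equiv.mulRight n) _ _ fun s => ?_).symm
    rw [Equiv.coe_mulRight, Subgroup.coe_mul, hθ _ _ hn, map_mul, Units.val_mul, mul_inv]
    ring
  have h3 : (1 - ((ζ n : ℂˣ) : ℂ)⁻¹) * ∑ s : S, θ s * ((ζ s : ℂ))⁻¹ = 0 := by
    rw [sub_mul, one_mul, sub_eq_zero]
    exact h2
  rcases mul_eq_zero.mp h3 with h4 | h4
  · exact absurd (sub_eq_zero.mp h4).symm h1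
  · rw [h4, zero_div]

/-- Galois invariance of rational multiplicities -/
theorem mlt_galois (S : Subgroup G) (ζ : S →* ℂˣ) (n j : ℕ) (hn : 0 < n) (hζ : ζ ^ n = 1)
    (hj : Nat.Coprime j n) (θ : G → ℂ) (hθ : ∀ g, ∃ r : ℚ, θ g = r)
    (hint : ∃ m : ℤ, mlt S θ ζ = m) : mlt S θ (ζ ^ j) = mlt S θ ζ := by
  obtain ⟨m, hm⟩ := hint
  choose r hr using hθ
  have hS : (Nat.card S : ℂ) ≠ 0 := by exact_mod_cast Nat.card_pos.ne'
  have : NeZero n := ⟨hn.ne'⟩
  set ω : ℂ := Complex.exp (2 * Real.pi * Complex.I / n) with hω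
  have hprim : IsPrimitiveRoot ω n := Complex.isPrimitiveRoot_exp n hn.ne'
  have ha : ∀ s : S, ∃ a : ℕ, ((ζ s : ℂ))⁻¹ = ω ^ a := by
    intro s
    have h1 : (((ζ s : ℂˣ) : ℂ)⁻¹) ^ n = 1 := by
      have h2 : (ζ s) ^ n = 1 := by
        have := congrArg (fun z : S →* ℂˣ => z s) hζ
        simpa using this
      rw [inv_pow, ← Units.val_pow_eq_pow_val, h2, Units.val_one, inv_one]
    obtain ⟨a, -, ha⟩ := hprim.eq_pow_of_pow_eq_one h1
    exact ⟨a, ha.symm⟩
  choose a ha using ha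
  set Q : Polynomial ℚ := (∑ s : S, Polynomial.C (r s) * Polynomial.X ^ (a s))
    - Polynomial.C ((Nat.card S : ℚ) * m) with hQ
  have hev : ∀ z : ℂ, Polynomial.aeval z Q = (∑ s : S, θ s * z ^ (a s)) - (Nat.card S : ℂ) * m := by
    intro z
    rw [hQ]
    simp [hr]
  have h0 : Polynomial.aeval ω Q = 0 := by
    rw [hev, sub_eq_zero]
    have h1 : mlt S θ ζ = (∑ s : S, θ s * ω ^ (a s)) / (Nat.card S : ℂ) := by
      unfold mlt
      congr 1
      refine Finset.sum_congr rfl fun s _ => ?_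
      rw [ha]
    rw [h1, div_eq_iff hS] at hm
    rw [hm]
    ring
  have hprim2 : IsPrimitiveRoot (ω ^ j) n := hprim.pow_of_coprime j hj
  have h2 : minpoly ℚ ω = minpoly ℚ (ω ^ j) := by
    rw [← Polynomial.cyclotomic_eq_minpoly_rat hprim hn,
      ← Polynomial.cyclotomic_eq_minpoly_rat hprim2 hn]
  have h3 : Polynomial.aeval (ω ^ j) Q = 0 := by
    have h4 := minpoly.dvd ℚ ω h0
    rw [h2] at h4
    obtain ⟨T, hT⟩ := h4
    rw [hT, map_mul, minpoly.aeval, zero_mul]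
  rw [hev, sub_eq_zero] at h3
  rw [hm]
  unfold mlt
  rw [div_eq_iff hS, mul_comm, ← h3]
  refine Finset.sum_congr rfl fun s _ => ?_
  congr 1
  rw [MonoidHom.pow_apply, Units.val_pow_eq_pow_val, ← inv_pow, ha, ← pow_mul, ← pow_mul, mul_comm]

/-- **Part 2**: rational valued virtual characters -/
theorem even_q_rat (S : Subgroup G) (ξ : S →* ℂˣ) (k : ℕ) (hk : 1 ≤ k) (hξ : ξ ^ (2 ^ (k + 1)) = 1)
    (hξ' : ξ ^ (2 ^ k) ≠ 1) (θ : G → ℂ) (hθ : ∀ g, ∃ r : ℚ, θ g = r)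
    (hint : ∀ ζ : S →* ℂˣ, ∃ m : ℤ, mlt S θ ζ = m) : EvenC (q S ξ θ) := by
  obtain ⟨δ, hδ⟩ := exists_qc (ξ ^ (2 ^ k)) (by rw [← pow_mul, ← pow_succ, hξ])
  refine even_of_invol _ (fun η => hint _) δ ?_ ?_
  · rintro rfl
    apply hξ'
    rw [← hδ]
    ext s
    simp [qc]
  · intro η
    have hq : ∀ s : S, (qc η s) ^ (2 ^ k) = 1 := by
      intro s
      obtain ⟨l, rfl⟩ : ∃ l, k = l + 1 := ⟨k - 1, by omega⟩
      have : (η s) ^ 2 = 1 := Int.units_sq _
      rw [pow_succ, mul_comm, pow_mul, qc, MonoidHom.comp_apply, ← map_pow, this, map_one, one_pow]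
    have h1 : ξ * qc (η * δ) = (ξ * qc η) ^ (1 + 2 ^ k) := by
      refine MonoidHom.ext fun s => ?_
      have hδs : qc δ s = (ξ s) ^ (2 ^ k) := by
        rw [hδ, MonoidHom.pow_apply]
      rw [qc_mul, MonoidHom.pow_apply, MonoidHom.mul_apply, MonoidHom.mul_apply,
        MonoidHom.mul_apply, hδs, pow_add, pow_one, mul_pow, hq s, mul_one]
      exact mul_assoc _ _ _ |>.symm.trans rfl
    rw [h1]
    refine mlt_galois S (ξ * qc η) (2 ^ (k + 1)) (1 + 2 ^ k) (by positivity) ?_ ?_ θ hθ (hint _)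
    · refine MonoidHom.ext fun s => ?_
      have h2 : (ξ s) ^ (2 ^ (k + 1)) = 1 := by
        rw [← MonoidHom.pow_apply, hξ]
        rfl
      rw [MonoidHom.pow_apply, MonoidHom.mul_apply, mul_pow, h2, one_mul, pow_succ, pow_mul, hq s,
        one_pow]
      rfl
    · apply Nat.Coprime.pow_right
      obtain ⟨l, rfl⟩ : ∃ l, k = l + 1 := ⟨k - 1, by omega⟩
      rw [Nat.coprime_comm, Nat.coprime_two_left]
      exact ⟨2 ^ l, by rw [pow_succ]; ring⟩

end StarkSharp
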